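import Mathlib
import Pool.Agent.Q254.ThueMorse

/-!
# Sign exceptions of powers of the Thue-Morse generating function (MP_58bd73_nt, Q1: disproved)

Already for `m = 2` neither exceptional set has density `0`. From `t(2n) = t(n) + t(n-1)` and
`t(2n+1) = -2 t(n)` one gets, for all `k ≥ 0`,
`5 t(3(32k+28)) + 3 t(3(64k+48)) + 2 t(3(4k+3)) = 0` and
`2 t(3(8k+8)+1) + 2 t(3(64k+79)+1) + t(3(32k+32)+1) = 0`,
so one of the three indices is an exception each time.
-/

set_option autoImplicit false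

open Filter Topology

namespace Pool.Agent.Results.MP_58bd73_nt.PositiveDensity

/-- The Prouhet-Thue-Morse sequence `(-1)^{s₂(n)}`. -/
def s (n : ℕ) : ℤ := (-1) ^ (Nat.digits 2 n).sum

/-- `t m n`: the `n`-th term of the `m`-fold Cauchy convolution of the Thue-Morse sequence, i.e.
the coefficient of `x^n` in `(∑ s(k) x^k)^m = ∏ (1 - x^(2^k))^m`. -/
noncomputable def t (m n : ℕ) : ℤ := PowerSeries.coeff n ((PowerSeries.mk s) ^ m)

/-- The exceptional set `𝒜_{m,j} = {n : sgn t_m(3n+j) ≠ (-1)^j}`. -/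
def A (m j : ℕ) : Set ℕ := {n | (t m (3 * n + j)).sign ≠ (-1) ^ j}

/-- The number of elements of `A ∩ {0, 1, …, N-1}`. -/
noncomputable def count (A : Set ℕ) (N : ℕ) : ℕ := (A ∩ {n | n < N}).ncard

theorem ineq0 (N : ℕ) : N ≤ 192 * count (A 2 0) N + 80 := by
  have key := Q254ThueMorse.count (A 2 0) 32 28 64 48 4 3 (by norm_num) (by norm_num)
    (by norm_num) (by
      intro k
      by_contra hcon
      push Not at hcon
      obtain ⟨h1, h2, h3⟩ := hcon
      have pos : ∀ n : ℕ, n ∉ A 2 0 → 0 < Q254ThueMorse.t 2 (3 * n) := by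
        intro n hn
        have h : (t 2 (3 * n + 0)).sign = (-1) ^ 0 := by
          by_contra hne; exact hn hne
        rw [pow_zero, Int.sign_eq_one_iff_pos] at h
        exact h
      have p1 := pos _ h1
      have p2 := pos _ h2
      have p3 := pos _ h3
      have := Q254ThueMorse.rel0 k
      linarith) (N / 64) N (by intro k hk; omega)
  have : N / 64 ≤ 3 * count (A 2 0) N := key
  omega

theorem ineq1 (N : ℕ) : N ≤ 192 * count (A 2 1) N + 80 := by
  have key := Q254ThueMorse.count (A 2 1) 8 8 64 79 32 32 (by norm_num) (by norm_num)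
    (by norm_num) (by
      intro k
      by_contra hcon
      push Not at hcon
      obtain ⟨h1, h2, h3⟩ := hcon
      have neg : ∀ n : ℕ, n ∉ A 2 1 → Q254ThueMorse.t 2 (3 * n + 1) < 0 := by
        intro n hn
        have h : (t 2 (3 * n + 1)).sign = (-1) ^ 1 := by
          by_contra hne; exact hn hne
        rw [pow_one, Int.sign_eq_neg_one_iff_neg] at h
        exact h
      have p1 := neg _ h1
      have p2 := neg _ h2
      have p3 := neg _ h3
      have := Q254ThueMorse.rel1 k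
      linarith) ((N - 16) / 64) N (by intro k hk; omega)
  have : (N - 16) / 64 ≤ 3 * count (A 2 1) N := key
  omega

theorem not_tendsto {f : ℕ → ℕ} (h : ∀ N, N ≤ 192 * f N + 80) :
    ¬ Tendsto (fun N => (f N : ℝ) / N) atTop (𝓝 0) := by
  intro ht
  have h1 : ∀ᶠ N : ℕ in atTop, (f N : ℝ) / N < 1 / 384 :=
    ht.eventually (gt_mem_nhds (by norm_num))
  obtain ⟨N, hN, hbig⟩ := (h1.and (eventually_ge_atTop 200)).exists
  have hN0 : (0 : ℝ) < N := by
    have : 0 < N := by omega
    exact_mod_cast this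
  rw [div_lt_iff₀ hN0] at hN
  have h2 : (N : ℝ) ≤ 192 * f N + 80 := by exact_mod_cast h N
  have h3 : (200 : ℝ) ≤ N := by exact_mod_cast hbig
  linarith

/-- For `m = 2` both exceptional sets `𝒜_{2,0}` and `𝒜_{2,1}` have lower density at least `1/192`
(`count (𝒜_{2,j}) N ≥ (N - 80)/192` for all `N`); hence it is false that for every `m ≥ 2` and
each `j ∈ {0,1}` the set `𝒜_{m,j}` is infinite and has asymptotic density `0`. -/
theorem result :
    (∀ j : ℕ, j = 0 ∨ j = 1 → (∀ N : ℕ, N ≤ 192 * count (A 2 j) N + 80) ∧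
      ¬ Tendsto (fun N : ℕ => (count (A 2 j) N : ℝ) / N) atTop (𝓝 0)) ∧
    ¬ (∀ m : ℕ, 2 ≤ m → ∀ j : ℕ, j = 0 ∨ j = 1 → (A m j).Infinite ∧
      Tendsto (fun N : ℕ => (count (A m j) N : ℝ) / N) atTop (𝓝 0)) := by
  have h : ∀ j : ℕ, j = 0 ∨ j = 1 → ∀ N : ℕ, N ≤ 192 * count (A 2 j) N + 80 := by
    rintro j (rfl | rfl)
    · exact ineq0
    · exact ineq1
  refine ⟨fun j hj => ⟨h j hj, not_tendsto (h j hj)⟩, fun hall => ?_⟩
  exact not_tendsto (h 0 (Or.inl rfl)) (hall 2 le_rfl 0 (Or.inl rfl)).2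

end Pool.Agent.Results.MP_58bd73_nt.PositiveDensity
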